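import Pool.Agent.Lib.MP_b39e30_al.Gr.Group

/-! No nontrivial cyclic subgroup of the group is subnormal. -/

namespace Pool.Agent.Lib.MP_b39e30_al.Gr

variable {𝕜 : Type} [Field 𝕜] {M : ℕ}

/-- multiples of the basis vectors with large index -/
def Fresh (M : ℕ) (v : V 𝕜) : Prop := ∃ t q, M ≤ t ∧ v = Finsupp.single t q

/-- products of `k` fresh vectors -/
def Pd (M : ℕ) : ℕ → (A 𝕜) → Prop
  | 0, a => a = 1
  | k + 1, a => ∃ v b, Fresh M v ∧ Pd M k b ∧ a = io v * b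

lemma Fresh.apply {v : V 𝕜} (h : Fresh M v) {i : ℕ} (hi : i < M) : v i = 0 := by
  obtain ⟨t, q, ht, rfl⟩ := h
  exact Finsupp.single_eq_of_ne (by omega)

lemma Pd.split (k₁ k₂ : ℕ) : ∀ {a : A 𝕜}, Pd M (k₂ + k₁) a →
    ∃ a₁ a₂, Pd M k₁ a₁ ∧ Pd M k₂ a₂ ∧ a = a₁ * a₂ := by
  induction k₁ with
  | zero => exact fun {a} h => ⟨1, a, rfl, h, (one_mul a).symm⟩
  | succ k ih =>
    rintro _ ⟨v, b, hv, hb, rfl⟩
    obtain ⟨a₁, a₂, h1, h2, rfl⟩ := ih hb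
    exact ⟨io v * a₁, a₂, ⟨v, a₁, hv, h1, rfl⟩, h2, (mul_assoc _ _ _).symm⟩

lemma Pd.smul {k : ℕ} {a : A 𝕜} (h : Pd M k a) (hk : k ≠ 0) (q : 𝕜) : Pd M k (q • a) := by
  obtain ⟨k, rfl⟩ := Nat.exists_eq_succ_of_ne_zero hk
  obtain ⟨_, b, ⟨t, s, ht, rfl⟩, hb, rfl⟩ := h
  exact ⟨Finsupp.single t (q * s), b, ⟨t, _, ht, rfl⟩, hb, by
    rw [← smul_mul_assoc, ← map_smul, Finsupp.smul_single, smul_eq_mul]⟩

lemma Pd.sg (k : ℕ) : ∀ {a : A 𝕜}, Pd M k a → sg a = (-1 : 𝕜) ^ k • a := by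
  induction k with
  | zero => rintro _ rfl; simp
  | succ k ih =>
    rintro _ ⟨v, b, -, hb, rfl⟩
    rw [map_mul, sg_io, ih hb, pow_succ]; simp

lemma Pd.sq {k : ℕ} {a : A 𝕜} (h : Pd M k a) (hk : k ≠ 0) : a * a = 0 := by
  obtain ⟨k, rfl⟩ := Nat.exists_eq_succ_of_ne_zero hk
  obtain ⟨v, b, -, -, rfl⟩ := h
  rw [mul_assoc, mul_io' b, io_sq']

lemma sign_congr {m n : ℕ} (h : m % 2 = n % 2) : (-1 : 𝕜) ^ m = (-1) ^ n := by
  rw [neg_one_pow_eq_pow_mod_two, h, ← neg_one_pow_eq_pow_mod_two]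

lemma sign_sq (m : ℕ) : (-1 : 𝕜) ^ m * (-1) ^ m = 1 := by rw [← mul_pow]; simp

/-- operators which supercommute with the fresh vectors -/
def SC (M p : ℕ) (Z : U 𝕜) : Prop :=
  ∀ v, Fresh M v → Z * lm (io v) = (-1 : 𝕜) ^ p • (lm (io v) * Z)

lemma SC.mul {p q : ℕ} {Z W : U 𝕜} (h : SC M p Z) (h' : SC M q W) : SC M (p + q) (Z * W) :=
  fun v hv => by
    rw [mul_assoc, h' v hv, mul_smul_comm, ← mul_assoc, h v hv, smul_mul_assoc, smul_smul,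
      mul_assoc, pow_add, mul_comm ((-1 : 𝕜) ^ p)]

lemma SC.smul {p : ℕ} {Z : U 𝕜} (h : SC M p Z) (q : 𝕜) : SC M p (q • Z) := fun v hv => by
  rw [smul_mul_assoc, h v hv, mul_smul_comm, smul_comm]

lemma SC.sub {p : ℕ} {Z W : U 𝕜} (h : SC M p Z) (h' : SC M p W) : SC M p (Z - W) := fun v hv => by
  rw [sub_mul, h v hv, h' v hv, mul_sub, smul_sub]

lemma SC.pd {p : ℕ} {Z : U 𝕜} (h : SC M p Z) (k : ℕ) :
    ∀ {a : A 𝕜}, Pd M k a → Z * lm a = (-1 : 𝕜) ^ (p * k) • (lm a * Z) := by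
  induction k with
  | zero => rintro _ rfl; simp
  | succ k ih =>
    rintro _ ⟨v, b, hv, hb, rfl⟩
    rw [map_mul, ← mul_assoc, h v hv, smul_mul_assoc, mul_assoc, ih hb, mul_smul_comm, smul_smul,
      mul_add, mul_one, pow_add, mul_comm ((-1 : 𝕜) ^ p), mul_assoc]

lemma Pd.sc {k : ℕ} {a : A 𝕜} (h : Pd M k a) : SC M k (lm a) := fun v _ => by
  rw [← map_mul, ← map_mul, mul_io, h.sg, mul_smul_comm, map_smul]

lemma SC.nil {p k : ℕ} {Z : U 𝕜} (h : SC M p Z) {a : A 𝕜} (ha : Pd M k a) (hk : k ≠ 0) (W : U 𝕜) :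
    lm a * Z * (lm a * W) = 0 := by
  rw [← mul_assoc, mul_assoc (lm a), h.pd k ha, mul_smul_comm, ← mul_assoc, ← map_mul, ha.sq hk]
  simp

lemma Supp.sc {N : ℕ} {u : (U 𝕜)ˣ} (hu : u ∈ Supp N) (h : N ≤ M) : SC M 0 (u : U 𝕜) := by
  rintro _ ⟨t, q, ht, rfl⟩
  have : io (Finsupp.single t q) = q • Gr.xi t := by rw [Gr.xi, ← map_smul]; simp
  rw [this, map_smul, pow_zero, one_smul, mul_smul_comm, smul_mul_assoc,
    (hu _ ⟨t, h.trans ht, Or.inr rfl⟩).eq]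

/-- the operators which occur in `K` with all long fresh coefficients -/
def LL (M : ℕ) (K : Subgroup (U 𝕜)ˣ) (p : ℕ) (Z : U 𝕜) : Prop :=
  SC M p Z ∧ ∃ r, ∀ k, r < k → (-1 : 𝕜) ^ k = (-1) ^ p → ∀ a, Pd M k a →
    ∃ u ∈ K, (u : U 𝕜) = 1 + lm a * Z

variable {K K' : Subgroup (U 𝕜)ˣ}

lemma LL.smul {p : ℕ} {Z : U 𝕜} (h : LL M K p Z) (q : 𝕜) : LL M K p (q • Z) := by
  obtain ⟨h1, r, h2⟩ := h
  refine ⟨h1.smul q, r, fun k hk hp a ha => ?_⟩
  obtain ⟨u, hu, e⟩ := h2 k hk hp _ (ha.smul (by omega) q)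
  exact ⟨u, hu, by rw [e, map_smul, smul_mul_assoc, mul_smul_comm]⟩

lemma LL.of_smul {p : ℕ} {Z W : U 𝕜} (h : LL M K p Z) {q : 𝕜} (hq : q ≠ 0) (e : Z = q • W) :
    LL M K p W := by
  have := h.smul q⁻¹
  rwa [e, smul_smul, inv_mul_cancel₀ hq, one_smul] at this

lemma LL.par {p p' : ℕ} {Z : U 𝕜} (h : LL M K p Z) (e : (-1 : 𝕜) ^ p = (-1) ^ p') :
    LL M K p' Z := by
  obtain ⟨h1, r, h2⟩ := h
  exact ⟨fun v hv => by rw [h1 v hv, e], r, fun k hk hp => h2 k hk (hp.trans e.symm)⟩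

lemma LL.br (hn : ∀ a ∈ K', ∀ b ∈ K, a⁻¹ * b * a ∈ K) {p q : ℕ} {Z W : U 𝕜} (h : LL M K p Z)
    (h' : LL M K' q W) : LL M K (p + q) (Z * W - (-1 : 𝕜) ^ (p * q) • (W * Z)) := by
  obtain ⟨h1, r, h2⟩ := h
  obtain ⟨h1', r', h2'⟩ := h'
  refine ⟨(h1.mul h1').sub (SC.smul (add_comm p q ▸ h1'.mul h1) _), r + r' + 2,
    fun k hk hp a ha => ?_⟩
  obtain ⟨k₁, k₂, rfl, b1, b2, b3, b4⟩ : ∃ k₁ k₂, k = k₂ + k₁ ∧ r < k₁ ∧ r' < k₂ ∧
      k₁ % 2 = p % 2 ∧ True :=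
    ⟨r + 1 + (r + 1 + p) % 2, k - (r + 1 + (r + 1 + p) % 2), by omega, by omega, by omega,
      by omega, trivial⟩
  replace b3 : (-1 : 𝕜) ^ k₁ = (-1) ^ p := sign_congr b3
  replace b4 : (-1 : 𝕜) ^ k₂ = (-1) ^ q := by
    rw [pow_add, pow_add, b3, mul_comm] at hp
    exact mul_left_cancel₀ (by simp) hp
  obtain ⟨a₁, a₂, c1, c2, rfl⟩ := Pd.split k₁ k₂ ha
  set s : 𝕜 := (-1) ^ (p * q) with hs
  have c1' := c1.smul (by omega) s
  obtain ⟨u, hu, e⟩ := h2 k₁ b1 b3 _ c1'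
  obtain ⟨u', hu', e'⟩ := h2' k₂ b2 b4 _ c2
  refine ⟨u⁻¹ * u'⁻¹ * u * u', ?_, ?_⟩
  · have := mul_mem (inv_mem hu) (hn u' hu' u hu)
    simpa only [mul_assoc] using this
  rw [comm_val e e' (h1.nil c1' (by omega) _) (h1'.nil c2 (by omega) _)
    (by simpa only [mul_assoc] using ((h1.mul c2.sc).mul h1').nil c1' (by omega) Z)
    (by simpa only [mul_assoc] using ((h1'.mul c1'.sc).mul h1).nil c2 (by omega) W)]
  have s1 : Z * lm a₂ = s • (lm a₂ * Z) := by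
    rw [h1.pd k₂ c2, hs, pow_mul', b4, ← pow_mul']
  have s2 : W * lm a₁ = s • (lm a₁ * W) := by
    rw [h1'.pd k₁ c1, hs, pow_mul', b3, ← pow_mul]
  have s3 : lm a₂ * lm a₁ = s • (lm a₁ * lm a₂) := by
    rw [c2.sc.pd k₁ c1, hs, pow_mul, b4, ← pow_mul, pow_mul', b3, ← pow_mul]
  have s4 : s * s = 1 := sign_sq _
  have t1 : lm (s • a₁) * Z * (lm a₂ * W) = lm (a₁ * a₂) * (Z * W) := by
    rw [map_smul, map_mul, mul_assoc, ← mul_assoc Z, s1]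
    simp only [smul_mul_assoc, mul_smul_comm, smul_smul, s4, one_smul, mul_assoc]
  have t2 : lm a₂ * W * (lm (s • a₁) * Z) = lm (a₁ * a₂) * (s • (W * Z)) := by
    rw [map_smul, map_mul, smul_mul_assoc, mul_smul_comm, mul_assoc, ← mul_assoc W, s2,
      smul_mul_assoc, mul_smul_comm, smul_smul, s4, one_smul, ← mul_assoc, ← mul_assoc, s3]
    simp only [smul_mul_assoc, mul_smul_comm, mul_assoc]
  rw [t1, t2, mul_sub]

lemma LL.conj (hn : ∀ a ∈ K', ∀ b ∈ K, a⁻¹ * b * a ∈ K) {g : (U 𝕜)ˣ} (hg : g ∈ K) {N : ℕ}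
    (hN : g ∈ Supp N) (hM : N ≤ M) {p : ℕ} {Z : U 𝕜} (h : LL M K' p Z) :
    LL M K p (Z - (g⁻¹ : (U 𝕜)ˣ) * Z * g) := by
  obtain ⟨h1, r, h2⟩ := h
  have g1 := Supp.sc hN hM
  have g2 := Supp.sc (inv_mem hN) hM
  have h3 : SC M p (((g⁻¹ : (U 𝕜)ˣ) : U 𝕜) * Z * (g : U 𝕜)) := by
    simpa using (g2.mul h1).mul g1
  refine ⟨h1.sub h3, r, fun k hk hp a ha => ?_⟩
  obtain ⟨u, hu, e⟩ := h2 k hk hp a ha
  refine ⟨g⁻¹ * u⁻¹ * g * u, ?_, ?_⟩
  · have := mul_mem (inv_mem hg) (hn u hu g hg)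
    simpa only [mul_assoc] using this
  have e1 : ((g⁻¹ : (U 𝕜)ˣ) : U 𝕜) * (lm a * Z) * g = lm a * ((g⁻¹ : (U 𝕜)ˣ) * Z * g) := by
    rw [← mul_assoc, g2.pd k ha]; simp [mul_assoc]
  rw [Units.val_mul, Units.val_mul, Units.val_mul, inv_val e (h1.nil ha (by omega) _), e, mul_sub,
    sub_mul, mul_one, Units.inv_mul, e1, sub_mul, one_mul, mul_add, mul_one,
    h3.nil ha (by omega), mul_sub]
  abel

/-- all translations and all elementary linear fields occur -/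
def Good (M : ℕ) (K : Subgroup (U 𝕜)ˣ) : Prop :=
  (∀ i < M, LL M K 1 (dd i)) ∧ ∀ k < M, ∀ l < M, k ≠ l → LL M K 0 (vf (xi k) l)

lemma good_top : Good M (G 𝕜) := by
  have gen : ∀ c i, Adm c → ∃ u ∈ G 𝕜, (u : U 𝕜) = 1 + vf c i := fun c i hc =>
    ⟨un _ (hc.sq i), Subgroup.subset_closure ⟨c, i, hc, rfl⟩, rfl⟩
  refine ⟨fun i hi => ⟨fun v hv => LinearMap.ext fun b => ?_, 2, fun k hk hp a ha => ?_⟩,
    fun k _ l hl _ => ⟨fun v hv => LinearMap.ext fun b => ?_, 1, fun n hn hp a ha => ?_⟩⟩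
  · simp [dd_io_mul, hv.apply hi]
  · obtain ⟨n, rfl⟩ : ∃ n, k = n + 3 := ⟨k - 3, by omega⟩
    obtain ⟨v₁, _, -, ⟨v₂, _, -, ⟨v₃, w, -, hw, rfl⟩, rfl⟩, rfl⟩ := ha
    exact gen _ i ⟨v₁, v₂, v₃, w, by
      rw [hw.sg, sign_congr (n := n + 3 + 1) (by omega), pow_succ, hp]; simp, rfl⟩
  · simp [dd_io_mul, hv.apply hl, mul_io' (xi k)]
  · obtain ⟨m, rfl⟩ : ∃ m, n = m + 2 := ⟨n - 2, by omega⟩
    obtain ⟨v₁, _, -, ⟨v₂, w, -, hw, rfl⟩, rfl⟩ := ha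
    have hw' : sg w = w := by rw [hw.sg, sign_congr (n := m + 2) (by omega), hp]; simp
    obtain ⟨u, hu, e⟩ := gen _ l ⟨v₁, v₂, Finsupp.single k 1, w, hw', rfl⟩
    refine ⟨u, hu, e.trans (congrArg (1 + ·) (LinearMap.ext fun b => ?_))⟩
    change io v₁ * (io v₂ * (xi k * w)) * dd l b = io v₁ * (io v₂ * w) * (xi k * dd l b)
    rw [← even_comm hw']; simp only [mul_assoc]

lemma vf_br {c c' : A 𝕜} (h : sg c = -c) (h' : sg c' = -c') (a b : ℕ) :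
    vf c a * vf c' b - (-1 : 𝕜) ^ (0 * 0) • (vf c' b * vf c a) =
      vf (c * dd a c') b - vf (c' * dd b c) a := by
  refine LinearMap.ext fun z => ?_
  have e : c' * c = -(c * c') := by rw [← odd_comm h c', h', mul_neg]
  simp only [mul_zero, pow_zero, one_smul, LinearMap.sub_apply, Module.End.mul_apply, vf_apply,
    dd_mul, h, h', mul_add, ← mul_assoc, mul_neg, neg_mul, e, dd_dd b a]
  abel

lemma descend (hn : ∀ a ∈ K', ∀ b ∈ K, a⁻¹ * b * a ∈ K) (hK : Good M K') {N t : ℕ} (hN : N ≤ M)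
    (n : ℕ) : ∀ (S : Finset ℕ) (c : A 𝕜) (p : ℕ), S.card ≤ n → (∀ i ∈ S, i < N) →
      sg c = (-1 : 𝕜) ^ (p + 1) • c → (∀ s ∉ S, dd s c = 0) → LL M K p (vf c t) →
      (∃ a, dd a c ≠ 0) → ∃ (c' : A 𝕜) (a : ℕ) (q : 𝕜), q ≠ 0 ∧ a < N ∧ sg c' = -c' ∧
        dd a c' = algebraMap 𝕜 (A 𝕜) q ∧ LL M K 0 (vf c' t) := by
  induction n with
  | zero =>
    rintro S c p hS - - h - ⟨a, ha⟩
    exact absurd (h a (by rw [Finset.card_eq_zero.1 (Nat.le_zero.1 hS)]; simp)) ha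
  | succ n ih =>
    rintro S c p hS hSN hc h hL ⟨a, ha⟩
    have hs : ∀ b, sg (dd b c) = (-1 : 𝕜) ^ p • dd b c := fun b => by
      rw [sg_dd, hc, map_smul, pow_succ]; simp
    by_cases h2 : ∀ i, dd i (dd a c) = 0
    · obtain ⟨q, hq⟩ := const_of_dd h2
      have hp : (-1 : 𝕜) ^ p = (-1) ^ 0 := by
        have := hs a
        rw [hq, AlgHom.commutes, ← hq] at this
        have h3 : ((-1 : 𝕜) ^ p - 1) • dd a c = 0 := by rw [sub_smul, ← this, one_smul, sub_self]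
        exact (sub_eq_zero.1 ((smul_eq_zero.1 h3).resolve_right ha)).trans (pow_zero _).symm
      refine ⟨c, a, q, fun h0 => ha (by rw [hq, h0, map_zero]),
        hSN a (by_contra fun h' => ha (h a h')), ?_, hq, hL.par hp⟩
      rw [hc, pow_succ, hp]; simp
    · push Not at h2
      have haS : a ∈ S := by_contra fun h' => ha (h a h')
      refine ih (S.erase a) (dd a c) (p + 1) (by rw [Finset.card_erase_of_mem haS]; omega)
        (fun i hi => hSN i (Finset.mem_of_mem_erase hi)) ?_ (fun s hs' => ?_) ?_ h2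
      · rw [hs, sign_congr (n := p + 1 + 1) (by omega)]
      · by_cases hsa : s = a
        · rw [hsa, dd_self]
        · rw [dd_dd, h s fun h' => hs' (Finset.mem_erase.2 ⟨hsa, h'⟩), map_zero, neg_zero]
      · refine (hL.br hn (hK.1 a ((hSN a haS).trans_le hN))).of_smul
          (q := -(-1 : 𝕜) ^ p) (by simp) (LinearMap.ext fun z => ?_)
        simp only [mul_one, LinearMap.sub_apply, LinearMap.smul_apply, Module.End.mul_apply,
          vf_apply, dd_mul, hc, pow_succ, smul_add, smul_mul_assoc, smul_smul, mul_neg, sign_sq,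
          dd_dd t a]
        module

lemma good_step (hn : ∀ a ∈ K', ∀ b ∈ K, a⁻¹ * b * a ∈ K) {g : (U 𝕜)ˣ} (hG : g ∈ G 𝕜) (hg : g ∈ K)
    (h1 : g ≠ 1) {N : ℕ} (hN : g ∈ Supp N) (hK : Good (N + 2) K') : Good (N + 2) K := by
  have hA := G_le_Aut hG
  have hA' := G_le_Aut (inv_mem hG)
  obtain ⟨j, hj⟩ : ∃ j, (g : U 𝕜) (xi j) ≠ xi j := by
    by_contra h
    push Not at h
    exact h1 (Aut.eq_one hA h)
  have hjN : j < N := by
    by_contra h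
    exact hj (by simpa [Aut.one hA] using Supp.xi hN (not_lt.1 h) 1)
  have he : (g : U 𝕜) (xi j) - xi j ∈ F 2 := G_le_St hG 1 _ (xi_mem j)
  have he' : ∀ t, N ≤ t → dd t ((g : U 𝕜) (xi j) - xi j) = 0 := fun t ht => by
    rw [map_sub, ← Supp.dd hN ht, dd_xi_ne (by omega), map_zero, sub_zero]
  obtain ⟨i, hi⟩ : ∃ i, dd i ((g : U 𝕜) (xi j) - xi j) ≠ 0 := by
    by_contra h
    push Not at h
    exact hj (sub_eq_zero.1 (eq_zero_of_dd h (F_succ_le 1 he)))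
  have hiN : i < N := by_contra fun h => hi (he' i (not_lt.1 h))
  set c := ((g⁻¹ : (U 𝕜)ˣ) : U 𝕜) (dd i ((g : U 𝕜) (xi j) - xi j)) with hc
  have c0 : c ≠ 0 := fun h => hi (by rw [← app_inv g (dd i _), ← hc, h, map_zero])
  have c1 : c ∈ F 1 := St.map (G_le_St (inv_mem hG)) (dd_mem_F i 1 he)
  have gx : sg ((g : U 𝕜) (xi j)) = -(g : U 𝕜) (xi j) := by rw [← G_sg hG, sg_xi, map_neg]
  have c2 : sg c = c := by
    rw [hc, ← G_sg (inv_mem hG), sg_dd, map_sub sg, gx, sg_xi, ← map_neg (dd i)]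
    congr 2; abel
  have c3 : ∀ t, N ≤ t → dd t c = 0 := fun t ht => by
    rw [hc, ← Supp.dd (inv_mem hN) ht, dd_dd, he' t ht]; simp
  have c4 : ((g⁻¹ : (U 𝕜)ˣ) : U 𝕜) (dd i ((g : U 𝕜) (xi j))) = c + dd i (xi j) := by
    have : ((g⁻¹ : (U 𝕜)ˣ) : U 𝕜) (dd i (xi j)) = dd i (xi j) := by
      rw [xi, dd_io, Algebra.algebraMap_eq_smul_one, map_smul, Aut.one hA']
    rw [hc, map_sub, map_sub, this, sub_add_cancel]
  have L1 : LL (N + 2) K 1 (vf c (N + 1)) := by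
    refine (((hK.1 i (by omega)).conj hn hg hN (by omega)).br hn
      (hK.2 j (by omega) (N + 1) (by omega) (by omega))).of_smul (q := -1) (by simp)
      (LinearMap.ext fun z => ?_)
    simp only [mul_zero, pow_zero, one_smul, LinearMap.sub_apply, LinearMap.smul_apply,
      Module.End.mul_apply, vf_apply, map_sub]
    rw [hA, dd_mul, dd_mul, gx, map_add, hA', hA', c4, inv_app, map_neg, inv_app,
      ← Supp.dd (inv_mem hN) (Nat.le_succ N), dd_dd (N + 1) i, dd_dd (N + 1) i,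
      ← Supp.dd hN (Nat.le_succ N), map_neg, sg_xi]
    simp only [neg_smul, one_smul]
    noncomm_ring
  obtain ⟨c', a, q, q0, ha, d1, d2, L2⟩ := descend hn hK (N := N) (by omega) N (Finset.range N)
    c 1 (by simp) (by simp) (by rw [c2]; simp) (fun s hs => c3 s (by simpa using hs)) L1
    (by_contra fun h => c0 (eq_zero_of_dd (by simpa using h) c1))
  have L3 : LL (N + 2) K 0 (vf (xi N) (N + 1)) := by
    refine (L2.br hn (hK.2 N (by omega) a (by omega) (by omega))).of_smul (q := -q)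
      (neg_ne_zero.2 q0) ?_
    rw [vf_br d1 (sg_xi N), dd_xi_ne (by omega), d2]
    refine LinearMap.ext fun z => ?_
    simp [Algebra.algebraMap_eq_smul_one]
  have R : ∀ a b d, b < N + 2 → d < N + 2 → a ≠ d → LL (N + 2) K 0 (vf (xi a) b) →
      LL (N + 2) K 0 (vf (xi a) d) := fun a b d hb hd had h => by
    by_cases hbd : b = d
    · rwa [hbd] at h
    refine (h.br hn (hK.2 b hb d hd hbd)).of_smul one_ne_zero ?_
    rw [vf_br (sg_xi a) (sg_xi b), dd_xi_self, dd_xi_ne had.symm]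
    exact LinearMap.ext fun z => by simp
  have L : ∀ a b d, a < N + 2 → d < N + 2 → b ≠ d → LL (N + 2) K 0 (vf (xi a) b) →
      LL (N + 2) K 0 (vf (xi d) b) := fun a b d ha hd hbd h => by
    by_cases had : d = a
    · rwa [← had] at h
    refine (h.br hn (hK.2 d hd a ha had)).of_smul (q := -1) (by simp) ?_
    rw [vf_br (sg_xi a) (sg_xi d), dd_xi_self, dd_xi_ne hbd]
    exact LinearMap.ext fun z => by simp
  have E : ∀ k < N + 2, ∀ l < N + 2, k ≠ l → LL (N + 2) K 0 (vf (xi k) l) := by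
    intro k hk l hl hkl
    by_cases h : l = N
    · by_cases h' : k = N + 1
      · exact R k j l (by omega) hl hkl (L N j k (by omega) hk (by omega)
          (R N (N + 1) j (by omega) (by omega) (by omega) L3))
      · exact R k (N + 1) l (by omega) hl hkl (L N (N + 1) k (by omega) hk (by omega) L3)
    · exact L N l k (by omega) hk hkl.symm (R N (N + 1) l (by omega) hl (by omega) L3)
  refine ⟨fun l hl => ?_, E⟩
  obtain ⟨k, hk, hkl⟩ : ∃ k < N + 2, k ≠ l := ⟨if l = 0 then 1 else 0, by split_ifs <;> omega,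
    by split_ifs <;> omega⟩
  refine ((E k hk l hl hkl).br hn (hK.1 k hk)).of_smul (q := -1) (by simp)
    (LinearMap.ext fun z => ?_)
  simp [dd_mul, dd_xi_self, dd_dd l k]

/-- products of consecutive generators -/
noncomputable def PP (M : ℕ) : ℕ → (A 𝕜)
  | 0 => 1
  | k + 1 => xi (M + k) * PP M k

lemma PP_spec (M k : ℕ) : Pd M k (PP M k : A 𝕜) ∧
    (∀ t, M + k ≤ t → dd t (PP M k : A 𝕜) = 0) ∧
    (PP M k : A 𝕜) ≠ 0 ∧ dd (M + k) (PP M (k + 1) : A 𝕜) = PP M k := by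
  have l : ∀ k, dd (M + k) (PP M k : A 𝕜) = 0 →
      dd (M + k) (PP M (k + 1) : A 𝕜) = PP M k := fun k h => by
    rw [PP, dd_mul, dd_xi_self, h]; simp
  induction k with
  | zero => exact ⟨rfl, fun t _ => dd_one t, one_ne_zero, l 0 (dd_one _)⟩
  | succ k ih =>
    have h : ∀ t, M + (k + 1) ≤ t → dd t (PP M (k + 1) : A 𝕜) = 0 := fun t ht => by
      rw [PP, dd_mul, dd_xi_ne (by omega), ih.2.1 t (by omega)]; simp
    exact ⟨⟨_, _, ⟨M + k, 1, by omega, rfl⟩, ih.1, rfl⟩, h,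
      fun h0 => ih.2.2.1 (by rw [← ih.2.2.2, h0, map_zero]), l _ (h _ le_rfl)⟩

lemma not_good {N : ℕ} (hK : K ≤ Supp N) : ¬ Good (N + 2) K := by
  rintro ⟨h, -⟩
  obtain ⟨-, r, h⟩ := h 0 (by omega)
  obtain ⟨u, hu, e⟩ :=
    h (2 * r + 1) (by omega) (sign_congr (by omega)) _ (PP_spec (N + 2) (2 * r + 1)).1
  have := Supp.dd (hK hu) (t := N + 2 + 2 * r) (by omega) (xi 0)
  rw [dd_xi_ne (by omega), map_zero, e, LinearMap.add_apply, map_add, Module.End.one_apply,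
    dd_xi_ne (by omega), zero_add, Module.End.mul_apply, dd_xi_self, lm_apply, mul_one,
    (PP_spec _ _).2.2.2] at this
  exact (PP_spec _ _).2.2.1 this.symm

theorem baer_trivial (g : G 𝕜) (h : (Subgroup.zpowers g).IsSubnormal) : g = 1 := by
  by_contra h1
  obtain ⟨N, hN⟩ := exists_supp g.2
  have key : ∀ H : Subgroup (G 𝕜), H.IsSubnormal → g ∈ H → Good (N + 2) (H.map (G 𝕜).subtype) := by
    intro H hH
    induction hH with
    | top => intro _; rw [← MonoidHom.range_eq_map, Subgroup.range_subtype]; exact good_top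
    | step H H' hle _ hn ih =>
      intro hg
      refine good_step (K' := H'.map (G 𝕜).subtype) ?_ g.2 (Subgroup.mem_map.2 ⟨g, hg, rfl⟩)
        (fun h0 => h1 (Subtype.ext h0)) hN (ih (hle hg))
      rintro _ ⟨a, ha, rfl⟩ _ ⟨b, hb, rfl⟩
      refine ⟨a⁻¹ * b * a, ?_, rfl⟩
      simpa using (Subgroup.normal_subgroupOf_iff hle).1 hn b a⁻¹ hb (inv_mem ha)
  refine not_good ?_ (key _ h (Subgroup.mem_zpowers g))
  rw [MonoidHom.map_zpowers]
  exact Subgroup.zpowers_le.2 hN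

lemma nontrivial_G : Nontrivial (G 𝕜) := by
  have hc : Adm (PP 0 3 : A 𝕜) := ⟨_, _, _, 1, map_one _, rfl⟩
  refine ⟨⟨⟨un _ (hc.sq 0), Subgroup.subset_closure ⟨_, 0, hc, rfl⟩⟩, 1, fun h => ?_⟩⟩
  have h1 : (1 : U 𝕜) + vf (PP 0 3) 0 = 1 := congrArg (fun u : (G 𝕜) => ((u : (U 𝕜)ˣ) : U 𝕜)) h
  have h2 := LinearMap.congr_fun (add_eq_left.1 h1) (xi 0)
  rw [vf_apply, dd_xi_self, mul_one] at h2
  exact (PP_spec 0 3).2.2.1 h2

end Pool.Agent.Lib.MP_b39e30_al.Gr
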