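import Mathlib

/-! Calculus in the Grassmann algebra on countably many generators. -/

namespace Pool.Agent.Lib.MP_b39e30_al.Gr

open CliffordAlgebra

abbrev V (𝕜 : Type) [Field 𝕜] : Type := ℕ →₀ 𝕜
abbrev A (𝕜 : Type) [Field 𝕜] : Type := ExteriorAlgebra 𝕜 (V 𝕜)
abbrev U (𝕜 : Type) [Field 𝕜] : Type := Module.End 𝕜 (A 𝕜)

variable {𝕜 : Type} [Field 𝕜]

/-- a vector as an element of the algebra -/
noncomputable def io : V 𝕜 →ₗ[𝕜] (A 𝕜) := ExteriorAlgebra.ι 𝕜
/-- the parity automorphism -/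
noncomputable def sg : A 𝕜 →ₐ[𝕜] (A 𝕜) := involute
/-- the derivatives -/
noncomputable def dd (i : ℕ) : U 𝕜 := contractLeft (Finsupp.lapply i)
/-- the generators -/
noncomputable def xi (i : ℕ) : A 𝕜 := io (Finsupp.single i 1)
/-- left multiplication -/
noncomputable def lm : A 𝕜 →ₐ[𝕜] (U 𝕜) := Algebra.lmul 𝕜 (A 𝕜)

@[simp] lemma lm_apply (a b : A 𝕜) : lm a b = a * b := rfl

lemma ind {P : A 𝕜 → Prop} (h1 : ∀ r : 𝕜, P (algebraMap 𝕜 (A 𝕜) r))
    (h2 : ∀ x y, P x → P y → P (x + y)) (h3 : ∀ x m, P x → P (io m * x)) (x : A 𝕜) : P x :=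
  left_induction _ h1 h2 h3 x

lemma io_sq (v : V 𝕜) : io v * io v = 0 := ExteriorAlgebra.ι_sq_zero v

lemma io_anti (v w : V 𝕜) : io v * io w = -(io w * io v) :=
  eq_neg_of_add_eq_zero_left (ExteriorAlgebra.ι_add_mul_swap v w)

@[simp] lemma sg_io (v : V 𝕜) : sg (io v) = -io v := involute_ι v
@[simp] lemma sg_sg (a : A 𝕜) : sg (sg a) = a := involute_involute a
@[simp] lemma sg_xi (i : ℕ) : sg (xi i : A 𝕜) = -xi i := sg_io _

lemma mul_io (a : A 𝕜) (v : V 𝕜) : a * io v = io v * sg a := by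
  induction a using ind with
  | h1 r => rw [AlgHom.commutes, Algebra.commutes]
  | h2 x y hx hy => rw [add_mul, map_add, mul_add, hx, hy]
  | h3 x m hx =>
    rw [mul_assoc, hx, ← mul_assoc, io_anti m v, map_mul, sg_io]; noncomm_ring

lemma odd_comm {c : A 𝕜} (hc : sg c = -c) (z : A 𝕜) : c * sg z = z * c := by
  induction z using ind with
  | h1 r => rw [AlgHom.commutes, Algebra.commutes]
  | h2 x y hx hy => rw [add_mul, map_add, mul_add, hx, hy]
  | h3 x m hx =>
    rw [map_mul, sg_io, neg_mul, mul_neg, ← mul_assoc, mul_io, hc, mul_assoc (io m) x, ← hx]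
    noncomm_ring

lemma even_comm {w : A 𝕜} (hw : sg w = w) (z : A 𝕜) : w * z = z * w := by
  induction z using ind with
  | h1 r => rw [Algebra.commutes]
  | h2 x y hx hy => rw [add_mul, mul_add, hx, hy]
  | h3 x m hx => rw [← mul_assoc, mul_io, hw, mul_assoc, hx, mul_assoc]

lemma dd_io_mul (i : ℕ) (v : V 𝕜) (b : A 𝕜) : dd i (io v * b) = v i • b - io v * dd i b :=
  contractLeft_ι_mul _ v b

@[simp] lemma dd_alg (i : ℕ) (r : 𝕜) : dd i (algebraMap 𝕜 (A 𝕜) r) = 0 :=
  contractLeft_algebraMap _ _ r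

@[simp] lemma dd_one (i : ℕ) : dd i (1 : A 𝕜) = 0 := contractLeft_one _ _

lemma dd_io (i : ℕ) (v : V 𝕜) : dd i (io v) = algebraMap 𝕜 (A 𝕜) (v i) := contractLeft_ι _ _ v

lemma dd_xi_self (i : ℕ) : dd i (xi i : A 𝕜) = 1 := by simp [xi, dd_io]

lemma dd_xi_ne {i j : ℕ} (h : i ≠ j) : dd i (xi j : A 𝕜) = 0 := by
  simp [xi, dd_io, h.symm]

lemma dd_dd (i j : ℕ) (a : A 𝕜) : dd i (dd j a) = -dd j (dd i a) := contractLeft_comm _ _ a

lemma dd_self (i : ℕ) (a : A 𝕜) : dd i (dd i a) = 0 := contractLeft_contractLeft _ a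

lemma dd_mul (i : ℕ) (a b : A 𝕜) : dd i (a * b) = dd i a * b + sg a * dd i b := by
  induction a using ind with
  | h1 r => rw [AlgHom.commutes, dd_alg, ← Algebra.smul_def, ← Algebra.smul_def, map_smul]; simp
  | h2 x y hx hy => simp only [add_mul, map_add, hx, hy]; abel
  | h3 x m hx =>
    rw [mul_assoc, dd_io_mul, dd_io_mul, hx, map_mul, sg_io, sub_mul, smul_mul_assoc]
    noncomm_ring

lemma dd_sg (i : ℕ) (a : A 𝕜) : dd i (sg a) = -sg (dd i a) := by
  induction a using ind with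
  | h1 r => simp [AlgHom.commutes]
  | h2 x y hx hy => simp only [map_add, hx, hy]; abel
  | h3 x m hx =>
    rw [map_mul, sg_io, neg_mul, map_neg, dd_io_mul, dd_io_mul, hx, map_sub, map_smul, map_mul,
      sg_io]
    noncomm_ring

lemma sg_dd (i : ℕ) (a : A 𝕜) : sg (dd i a) = -dd i (sg a) := by rw [dd_sg, neg_neg]

/-- truncation of vectors -/
noncomputable def tr (N : ℕ) : V 𝕜 →ₗ[𝕜] (V 𝕜) :=
  Finsupp.linearCombination 𝕜 fun i => if i < N then Finsupp.single i 1 else 0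

lemma tr_succ (N : ℕ) (v : V 𝕜) : tr (N + 1) v = tr N v + v N • Finsupp.single N 1 := by
  induction v using Finsupp.induction_linear with
  | zero => simp
  | add f g hf hg => rw [map_add, map_add, hf, hg, Finsupp.add_apply, add_smul]; abel
  | single i q =>
    simp only [tr, Finsupp.linearCombination_single, Finsupp.single_apply]
    rcases lt_trichotomy i N with h | h | h
    · simp [h, h.ne, h.trans (Nat.lt_succ_self N)]
    · simp [h]
    · simp [h.ne', not_lt.2 h.le, not_lt.2 (Nat.succ_le_of_lt h)]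

lemma tr_zero (v : V 𝕜) : tr 0 v = 0 := by
  induction v using Finsupp.induction_linear with
  | zero => simp
  | add f g hf hg => rw [map_add, hf, hg, add_zero]
  | single i q => simp [tr]

lemma tr_large (v : V 𝕜) : ∃ N, ∀ M, N ≤ M → tr M v = v := by
  induction v using Finsupp.induction_linear with
  | zero => exact ⟨0, fun _ _ => by simp⟩
  | add f g hf hg =>
    obtain ⟨N, hN⟩ := hf
    obtain ⟨N', hN'⟩ := hg
    exact ⟨max N N', fun M h => by
      rw [map_add, hN M ((le_max_left _ _).trans h), hN' M ((le_max_right _ _).trans h)]⟩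
  | single i q => exact ⟨i + 1, fun M h => by simp [tr, Nat.lt_of_succ_le h]⟩

/-- truncation of the algebra -/
noncomputable def pr (N : ℕ) : A 𝕜 →ₐ[𝕜] (A 𝕜) := ExteriorAlgebra.map (tr N)

lemma pr_io (N : ℕ) (v : V 𝕜) : pr N (io v) = io (tr N v) := ExteriorAlgebra.map_apply_ι _ v

lemma pr_succ (N : ℕ) (a : A 𝕜) : pr (N + 1) a = pr N a + xi N * pr N (dd N a) := by
  induction a using ind with
  | h1 r => simp [AlgHom.commutes]
  | h2 x y hx hy => simp only [map_add, hx, hy, mul_add]; abel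
  | h3 x m hx =>
    have e1 : (xi N : A 𝕜) * xi N = 0 := io_sq _
    have e2 : xi N * io (tr N m) = -(io (tr N m) * xi N) := io_anti _ _
    rw [map_mul, map_mul, hx, dd_io_mul, map_sub, map_smul, map_mul, pr_io, pr_io, tr_succ,
      map_add, map_smul, mul_sub, ← mul_assoc (xi N), e2]
    change (io (tr N m) + m N • xi N) * _ = _
    simp only [add_mul, mul_add, smul_mul_assoc, mul_smul_comm, ← mul_assoc, e1, zero_mul,
      smul_zero, neg_mul]
    abel

lemma pr_large (a : A 𝕜) : ∃ N, ∀ M, N ≤ M → pr M a = a := by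
  induction a using ind with
  | h1 r => exact ⟨0, fun _ _ => AlgHom.commutes _ _⟩
  | h2 f g hf hg =>
    obtain ⟨N, hN⟩ := hf
    obtain ⟨N', hN'⟩ := hg
    exact ⟨max N N', fun M h => by
      rw [map_add, hN M ((le_max_left _ _).trans h), hN' M ((le_max_right _ _).trans h)]⟩
  | h3 x m hx =>
    obtain ⟨N, hN⟩ := hx
    obtain ⟨N', hN'⟩ := tr_large m
    exact ⟨max N N', fun M h => by
      rw [map_mul, pr_io, hN M ((le_max_left _ _).trans h), hN' M ((le_max_right _ _).trans h)]⟩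

lemma pr_zero (a : A 𝕜) : ∃ q : 𝕜, pr 0 a = algebraMap 𝕜 (A 𝕜) q := by
  induction a using ind with
  | h1 r => exact ⟨r, AlgHom.commutes _ _⟩
  | h2 f g hf hg =>
    obtain ⟨q, hq⟩ := hf
    obtain ⟨q', hq'⟩ := hg
    exact ⟨q + q', by rw [map_add, map_add, hq, hq']⟩
  | h3 x m _ => exact ⟨0, by rw [map_mul, pr_io, tr_zero]; simp⟩

/-- elements without derivatives are constants -/
lemma const_of_dd {a : A 𝕜} (h : ∀ i, dd i a = 0) : ∃ q : 𝕜, a = algebraMap 𝕜 (A 𝕜) q := by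
  have h1 : ∀ N, pr N a = pr 0 a := by
    intro N
    induction N with
    | zero => rfl
    | succ N ih => rw [pr_succ, h, map_zero, mul_zero, add_zero, ih]
  obtain ⟨N, hN⟩ := pr_large a
  obtain ⟨q, hq⟩ := pr_zero a
  exact ⟨q, by rw [← hq, ← h1 N, hN N le_rfl]⟩

/-- every element involves finitely many variables -/
lemma dd_large (a : A 𝕜) : ∃ N, ∀ t, N ≤ t → dd t a = 0 := by
  induction a using ind with
  | h1 r => exact ⟨0, fun _ _ => dd_alg _ _⟩
  | h2 f g hf hg =>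
    obtain ⟨N, hN⟩ := hf
    obtain ⟨N', hN'⟩ := hg
    exact ⟨max N N', fun M h => by
      rw [map_add, hN M ((le_max_left _ _).trans h), hN' M ((le_max_right _ _).trans h), add_zero]⟩
  | h3 x m hx =>
    obtain ⟨N, hN⟩ := hx
    obtain ⟨N', hN'⟩ := m.support.bddAbove
    refine ⟨max N (N' + 1), fun M h => ?_⟩
    have : m M = 0 := by
      by_contra h0
      have := hN' (Finsupp.mem_support_iff.2 h0)
      have := (le_max_right _ _).trans h
      omega
    rw [dd_io_mul, hN M ((le_max_left _ _).trans h), this]; simp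

/-- the degree filtration -/
noncomputable def F : ℕ → Submodule 𝕜 (A 𝕜)
  | 0 => ⊤
  | r + 1 => Submodule.span 𝕜 {z | ∃ v, ∃ a ∈ F r, z = io v * a}

lemma io_mul_mem {r : ℕ} (v : V 𝕜) {a : A 𝕜} (h : a ∈ F r) : io v * a ∈ F (r + 1) :=
  Submodule.subset_span ⟨v, a, h, rfl⟩

lemma F_le {r : ℕ} {P : Submodule 𝕜 (A 𝕜)} (h : ∀ v, ∀ a ∈ F r, io v * a ∈ P) : F (r + 1) ≤ P :=
  Submodule.span_le.2 (by rintro _ ⟨v, a, ha, rfl⟩; exact h v a ha)

lemma mul_mem_F (r : ℕ) : ∀ (u : A 𝕜) {a : A 𝕜}, a ∈ F r → u * a ∈ F r := by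
  induction r with
  | zero => exact fun _ _ _ => Submodule.mem_top
  | succ r ih =>
    intro u a ha
    refine F_le (P := (F (r + 1)).comap (lm u)) (fun v b hb => ?_) ha
    change u * (io v * b) ∈ F (r + 1)
    rw [← mul_assoc, mul_io, mul_assoc]
    exact io_mul_mem v (ih _ hb)

lemma F_succ_le (r : ℕ) : F (𝕜 := 𝕜) (r + 1) ≤ F r := F_le fun _ _ ha => mul_mem_F r _ ha

lemma F_anti : Antitone (F (𝕜 := 𝕜)) := antitone_nat_of_succ_le F_succ_le

lemma dd_mem_F (i r : ℕ) : ∀ {a : A 𝕜}, a ∈ F (r + 1) → dd i a ∈ F r := by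
  induction r with
  | zero => exact fun _ => Submodule.mem_top
  | succ r ih =>
    intro a ha
    refine F_le (P := (F (r + 1)).comap (dd i)) (fun v b hb => ?_) ha
    change dd i (io v * b) ∈ F (r + 1)
    rw [dd_io_mul]
    exact sub_mem (Submodule.smul_mem _ _ hb) (io_mul_mem v (ih hb))

lemma xi_mem (i : ℕ) : (xi i : A 𝕜) ∈ F 1 := by
  have := io_mul_mem (r := 0) (Finsupp.single i 1) (a := (1 : A 𝕜)) Submodule.mem_top
  rwa [mul_one] at this

lemma eq_zero_of_dd {a : A 𝕜} (h : ∀ i, dd i a = 0) (h1 : a ∈ F 1) : a = 0 := by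
  obtain ⟨q, rfl⟩ := const_of_dd h
  have : F (𝕜 := 𝕜) 1 ≤ LinearMap.ker (pr 0).toLinearMap := F_le fun v b _ => by
    change pr 0 (io v * b) = 0
    rw [map_mul, pr_io, tr_zero]; simp
  have h2 : pr 0 (algebraMap 𝕜 (A 𝕜) q) = 0 := this h1
  rwa [AlgHom.commutes] at h2

lemma eq_zero_of_deep (n : ℕ) : ∀ (S : Finset ℕ) {a : A 𝕜}, S.card ≤ n → (∀ t ∉ S, dd t a = 0) →
    a ∈ F (n + 1) → a = 0 := by
  induction n with
  | zero =>
    intro S a hS h ha
    refine eq_zero_of_dd (fun i => h i ?_) ha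
    rw [Finset.card_eq_zero.1 (Nat.le_zero.1 hS)]; simp
  | succ n ih =>
    intro S a hS h ha
    refine eq_zero_of_dd (fun i => ?_) (F_anti (by omega) ha)
    by_cases hi : i ∈ S
    swap
    · exact h i hi
    refine ih (S.erase i) (by rw [Finset.card_erase_of_mem hi]; omega) (fun t ht => ?_)
      (dd_mem_F i _ ha)
    by_cases hti : t = i
    · rw [hti, dd_self]
    · rw [dd_dd, h t fun h' => ht (Finset.mem_erase.2 ⟨hti, h'⟩), map_zero, neg_zero]

lemma eq_zero_of_deep' {N : ℕ} {a : A 𝕜} (h : ∀ t, N ≤ t → dd t a = 0) (ha : a ∈ F (N + 1)) :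
    a = 0 :=
  eq_zero_of_deep N (Finset.range N) (by simp) (fun t ht => h t (by simpa using ht)) ha

end Pool.Agent.Lib.MP_b39e30_al.Gr
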