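import Pool.Agent.Lib.MP_b39e30_al.Gr.Group

/-! Every element of the group is a bounded left Engel element. -/

namespace Pool.Agent.Lib.MP_b39e30_al.Gr

open scoped commutatorElement

variable {𝕜 : Type} [Field 𝕜] {T T' : Set (A 𝕜)}

/-- powers of the ideal generated by a set -/
noncomputable def KK (T : Set (A 𝕜)) : ℕ → Submodule 𝕜 (A 𝕜)
  | 0 => ⊤
  | r + 1 => Submodule.span 𝕜 {z | ∃ t ∈ T, ∃ a ∈ KK T r, z = t * a}

/-- sets of odd elements of square zero -/
def Od (T : Set (A 𝕜)) : Prop := ∀ t ∈ T, sg t = -t ∧ t * t = 0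

lemma KK_mem {r : ℕ} {t a : A 𝕜} (ht : t ∈ T) (h : a ∈ KK T r) : t * a ∈ KK T (r + 1) :=
  Submodule.subset_span ⟨t, ht, a, h, rfl⟩

lemma KK_le {r : ℕ} {P : Submodule 𝕜 (A 𝕜)} (h : ∀ t ∈ T, ∀ a ∈ KK T r, t * a ∈ P) :
    KK T (r + 1) ≤ P :=
  Submodule.span_le.2 (by rintro _ ⟨t, ht, a, ha, rfl⟩; exact h t ht a ha)

lemma KK_map {y : U 𝕜} (hy : ∀ a b, y (a * b) = y a * y b) (h : ∀ t ∈ T, y t ∈ T') (r : ℕ) :
    KK T r ≤ (KK T' r).comap y := by
  induction r with
  | zero => exact fun _ _ => Submodule.mem_top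
  | succ r ih =>
    refine KK_le fun t ht a ha => ?_
    rw [Submodule.mem_comap, hy]
    exact KK_mem (h t ht) (ih ha)

lemma KK_mono (h : T ⊆ T') (r : ℕ) : KK T r ≤ KK T' r :=
  KK_map (y := 1) (fun _ _ => rfl) h r

lemma KK_left (hT : Od T) (r : ℕ) : ∀ (u : A 𝕜) {a : A 𝕜}, a ∈ KK T r → u * a ∈ KK T r := by
  induction r with
  | zero => exact fun _ _ _ => Submodule.mem_top
  | succ r ih =>
    intro u a ha
    refine KK_le (P := (KK T (r + 1)).comap (lm u)) (fun t ht b hb => ?_) ha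
    change u * (t * b) ∈ KK T (r + 1)
    rw [← mul_assoc, ← odd_comm (hT t ht).1, mul_assoc]
    exact KK_mem ht (ih _ hb)

lemma KK_anti (hT : Od T) : Antitone (KK T) :=
  antitone_nat_of_succ_le fun r => KK_le fun _ _ _ ha => KK_left hT r _ ha

lemma KK_mul (hT : Od T) {s : ℕ} {b : A 𝕜} (hb : b ∈ KK T s) (r : ℕ) :
    KK T r ≤ (KK T (s + r)).comap (LinearMap.mulRight 𝕜 b) := by
  induction r with
  | zero => exact fun a _ => KK_left hT s a hb
  | succ r ih =>
    refine KK_le fun t ht a ha => ?_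
    change t * a * b ∈ KK T (s + r + 1)
    rw [mul_assoc]
    exact KK_mem ht (ih ha)

lemma KK_insert {s : A 𝕜} (hT : Od (insert s T)) (r : ℕ) :
    KK (insert s T) (r + 1) ≤ KK T (r + 1) ⊔ (KK T r).map (lm s) := by
  have hs := hT s (Set.mem_insert _ _)
  induction r with
  | zero =>
    refine KK_le ?_
    rintro t (rfl | ht) a -
    · exact Submodule.mem_sup_right ⟨a, Submodule.mem_top, rfl⟩
    · exact Submodule.mem_sup_left (KK_mem ht Submodule.mem_top)
  | succ r ih =>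
    refine KK_le fun t ht a ha => ?_
    obtain ⟨b, hb, _, ⟨c, hc, rfl⟩, rfl⟩ := Submodule.mem_sup.1 (ih ha)
    rw [mul_add, lm_apply, ← mul_assoc]
    rcases ht with rfl | ht
    · rw [hs.2, zero_mul, add_zero]
      exact Submodule.mem_sup_right ⟨b, hb, rfl⟩
    · refine add_mem (Submodule.mem_sup_left (KK_mem ht hb)) (Submodule.mem_sup_right ?_)
      refine ⟨-(t * c), neg_mem (KK_mem ht hc), ?_⟩
      rw [← odd_comm hs.1, (hT t (Set.mem_insert_of_mem _ ht)).1, lm_apply]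
      noncomm_ring

lemma KK_bot (S : Finset (A 𝕜)) (hS : Od (S : Set (A 𝕜))) :
    KK (S : Set (A 𝕜)) (S.card + 1) = ⊥ := by
  classical
  induction S using Finset.induction_on with
  | empty => exact eq_bot_iff.2 (KK_le fun t ht => by simp at ht)
  | insert s S hs ih =>
    rw [Finset.coe_insert] at hS
    have hS' : Od (S : Set (A 𝕜)) := fun t ht => hS t (Set.mem_insert_of_mem _ ht)
    have h1 := KK_anti hS' (Nat.le_succ (S.card + 1))
    rw [Finset.coe_insert, Finset.card_insert_of_notMem hs, eq_bot_iff]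
    refine (KK_insert hS _).trans ?_
    rw [ih hS'] at h1 ⊢
    simpa using h1

lemma exists_small {u : (U 𝕜)ˣ} (hu : u ∈ G 𝕜) : ∃ S : Finset (A 𝕜), Od (S : Set (A 𝕜)) ∧
    ∀ a, (u : U 𝕜) a - a ∈ KK (S : Set (A 𝕜)) 2 := by
  classical
  induction hu using Subgroup.closure_induction with
  | mem u hu =>
    obtain ⟨_, i, ⟨v₁, v₂, v₃, w, -, rfl⟩, hu⟩ := hu
    refine ⟨{io v₁, io v₂}, ?_, fun a => ?_⟩
    · intro t ht
      simp only [Finset.coe_insert, Finset.coe_singleton, Set.mem_insert_iff,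
        Set.mem_singleton_iff] at ht
      rcases ht with rfl | rfl <;> exact ⟨sg_io _, io_sq _⟩
    · rw [hu, LinearMap.add_apply, Module.End.one_apply, add_sub_cancel_left, vf_apply, mul_assoc,
        mul_assoc]
      exact KK_mem (by simp) (KK_mem (by simp) Submodule.mem_top)
  | one => exact ⟨∅, fun t ht => by simp at ht, fun a => by simp⟩
  | mul u v _ _ hu hv =>
    obtain ⟨S, hS, h⟩ := hu
    obtain ⟨S', hS', h'⟩ := hv
    refine ⟨S ∪ S', ?_, fun a => ?_⟩ <;> rw [Finset.coe_union]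
    · exact fun t ht => ht.elim (hS t) (hS' t)
    · simpa using add_mem (KK_mono Set.subset_union_left 2 (h ((v : U 𝕜) a)))
        (KK_mono Set.subset_union_right 2 (h' a))
  | inv u _ hu =>
    obtain ⟨S, hS, h⟩ := hu
    refine ⟨S, hS, fun a => ?_⟩
    have := neg_mem (h (((u⁻¹ : (U 𝕜)ˣ) : U 𝕜) a))
    rwa [app_inv, neg_sub] at this

/-- the stability series of the powers of an ideal -/
def SK (hT : Od T) (c : ℕ) : Subgroup (U 𝕜)ˣ where
  carrier := {u | ∀ r, ∀ a ∈ KK T r, (u : U 𝕜) a - a ∈ KK T (r + c + 1)}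
  one_mem' := fun _ _ _ => by simp
  mul_mem' := fun {u v} hu hv r a ha => by
    have h1 := hv r a ha
    have h2 : (v : U 𝕜) a ∈ KK T r := by simpa using add_mem (KK_anti hT (by omega) h1) ha
    simpa using add_mem (hu r _ h2) h1
  inv_mem' := fun {u} hu r a ha => by
    have h1 : ∀ s ≤ r, ((u⁻¹ : (U 𝕜)ˣ) : U 𝕜) a ∈ KK T s := by
      intro s
      induction s with
      | zero => exact fun _ => Submodule.mem_top
      | succ s ih =>
        intro hs
        have := hu s _ (ih (by omega))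
        rw [app_inv] at this
        simpa using sub_mem (KK_anti hT hs ha) (KK_anti hT (by omega : s + 1 ≤ s + c + 1) this)
    have := hu r _ (h1 r le_rfl)
    rw [app_inv] at this
    simpa using neg_mem this

lemma SK.map {hT : Od T} {c r : ℕ} {u : (U 𝕜)ˣ} (hu : u ∈ SK hT c) {a : A 𝕜}
    (ha : a ∈ KK T r) : (u : U 𝕜) a ∈ KK T r := by
  simpa using add_mem (KK_anti hT (by omega) (hu r a ha)) ha

lemma SK.comm {hT : Od T} {c : ℕ} {u v : (U 𝕜)ˣ} (hu : u ∈ SK hT c) (hv : v ∈ SK hT 0) :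
    ⁅u, v⁆ ∈ SK hT (c + 1) := by
  intro r a ha
  have hb := SK.map (inv_mem hu) (SK.map (inv_mem hv) ha)
  set b := ((u⁻¹ : (U 𝕜)ˣ) : U 𝕜) (((v⁻¹ : (U 𝕜)ˣ) : U 𝕜) a) with hbd
  have e1 : a = (v : U 𝕜) ((u : U 𝕜) b) := by rw [hbd, app_inv, app_inv]
  have e2 : ((⁅u, v⁆ : (U 𝕜)ˣ) : U 𝕜) a = (u : U 𝕜) ((v : U 𝕜) b) := rfl
  have h1 := hu _ _ (hv r b hb)
  have h2 := hv _ _ (hu r b hb)
  have h3 := sub_mem (KK_anti hT (by omega : r + (c + 1) + 1 ≤ _) h1)
    (KK_anti hT (by omega : r + (c + 1) + 1 ≤ _) h2)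
  rw [e2, e1]
  simp only [map_sub] at h3
  have e3 : ∀ p q s t w : A 𝕜, p - s - (t - w) - (q - t - (s - w)) = p - q := fun _ _ _ _ _ => by
    abel
  rwa [e3] at h3

lemma SK.of_small (hT : Od T) {u : (U 𝕜)ˣ} (hu : u ∈ Aut)
    (h : ∀ a, (u : U 𝕜) a - a ∈ KK T 2) : u ∈ SK hT 0 := by
  intro r
  induction r with
  | zero => exact fun a _ => KK_anti hT (by omega) (h a)
  | succ r ih =>
    intro a ha
    refine KK_le (P := (KK T (r + 2)).comap ((u : U 𝕜) - 1)) (fun t ht b hb => ?_) ha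
    have h1 := ih b hb
    have h2 : (u : U 𝕜) b ∈ KK T r := by simpa using add_mem (KK_anti hT (by omega) h1) hb
    have e : ((u : U 𝕜) - 1) (t * b) =
        ((u : U 𝕜) t - t) * (u : U 𝕜) b + t * ((u : U 𝕜) b - b) := by
      rw [LinearMap.sub_apply, Module.End.one_apply, hu]; noncomm_ring
    rw [Submodule.mem_comap, e]
    exact add_mem (KK_mul hT h2 2 (h t)) (KK_mem ht h1)

lemma all_engel {x : (U 𝕜)ˣ} (hx : x ∈ G 𝕜) :
    ∃ n, ∀ y ∈ G 𝕜, (fun z => z⁻¹ * x⁻¹ * z * x)^[n] y = 1 := by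
  classical
  obtain ⟨S, hS, h⟩ := exists_small hx
  refine ⟨S.card + S.card + 1, fun y hy => ?_⟩
  have hy' := G_le_Aut (inv_mem hy)
  set S' := S ∪ S.image ((y⁻¹ : (U 𝕜)ˣ) : U 𝕜) with hS'
  have hc : S'.card ≤ S.card + S.card :=
    (Finset.card_union_le _ _).trans (Nat.add_le_add_left Finset.card_image_le _)
  have hT : Od (S' : Set (A 𝕜)) := by
    intro t ht
    rcases Finset.mem_union.1 ht with ht | ht
    · exact hS t ht
    · obtain ⟨s, hs, rfl⟩ := Finset.mem_image.1 ht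
      rw [← G_sg (inv_mem hy), ← hy', (hS s hs).1, (hS s hs).2, map_neg, map_zero]
      exact ⟨rfl, rfl⟩
  have h1 : x ∈ SK hT 0 := SK.of_small hT (G_le_Aut hx) fun a =>
    KK_mono (fun t ht => Finset.mem_union_left _ ht) 2 (h a)
  have h2 : y⁻¹ * x * y ∈ SK hT 0 := by
    refine SK.of_small hT (G_le_Aut (mul_mem (mul_mem (inv_mem hy) hx) hy)) fun a => ?_
    have := KK_map (T' := S') hy' (fun t ht =>
      Finset.mem_union_right _ (Finset.mem_image_of_mem _ ht)) 2 (h ((y : U 𝕜) a))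
    rwa [Submodule.mem_comap, map_sub, inv_app] at this
  have key : ∀ n, (fun z => z⁻¹ * x⁻¹ * z * x)^[n + 1] y ∈ SK hT n := by
    intro n
    induction n with
    | zero => simpa [mul_assoc] using mul_mem (inv_mem h2) h1
    | succ n ih =>
      rw [Function.iterate_succ_apply']
      simpa [commutatorElement_def] using SK.comm (inv_mem ih) (inv_mem h1)
  refine Units.ext (LinearMap.ext fun a => sub_eq_zero.1 ?_)
  have := KK_anti hT (by omega : S'.card + 1 ≤ _) (key (S.card + S.card) 0 a Submodule.mem_top)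
  rwa [KK_bot S' hT] at this

end Pool.Agent.Lib.MP_b39e30_al.Gr
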