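import Pool.Agent.Lib.MP_b39e30_al.Gr.Calc

/-! The group generated by the automorphisms `1 + c ∂ᵢ` of the Grassmann algebra. -/

namespace Pool.Agent.Lib.MP_b39e30_al.Gr

open scoped commutatorElement

section Ring

variable {R : Type*} [Ring R]

/-- the unit attached to an element of square zero -/
def un (z : R) (h : z * z = 0) : Rˣ :=
  ⟨1 + z, 1 - z, by rw [add_mul, one_mul, mul_sub, mul_one, h]; abel,
    by rw [sub_mul, one_mul, mul_add, mul_one, h]; abel⟩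

lemma inv_val {u : Rˣ} {a : R} (hu : (u : R) = 1 + a) (h : a * a = 0) :
    ((u⁻¹ : Rˣ) : R) = 1 - a := by
  have : u = un a h := Units.ext hu
  rw [this]; rfl

lemma comm_val {u v : Rˣ} {a b : R} (hu : (u : R) = 1 + a) (hv : (v : R) = 1 + b)
    (ha : a * a = 0) (hb : b * b = 0) (h1 : a * b * a = 0) (h2 : b * a * b = 0) :
    ((u⁻¹ * v⁻¹ * u * v : Rˣ) : R) = 1 + (a * b - b * a) := by
  have e1 : ∀ z, a * (a * z) = 0 := fun z => by rw [← mul_assoc, ha, zero_mul]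
  rw [mul_assoc] at h1 h2
  simp only [Units.val_mul, inv_val hu ha, inv_val hv hb, hu, hv, mul_add, add_mul, mul_sub,
    sub_mul, mul_one, one_mul, mul_assoc, ha, hb, h1, h2, e1, mul_zero]
  abel

lemma engel {x y : Rˣ} {a : R} (hx : (x : R) = 1 + a) (ha : a * a = 0)
    (h : a * ((y⁻¹ : Rˣ) * a * y) * a = 0) (h' : a * (y * a * (y⁻¹ : Rˣ)) * a = 0) :
    (fun z => z⁻¹ * x⁻¹ * z * x)^[3] y = 1 := by
  set b : R := (y⁻¹ : Rˣ) * a * y with hb
  have hw : ((y⁻¹ * x⁻¹ * y : Rˣ) : R) = 1 + -b := by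
    rw [Units.val_mul, Units.val_mul, inv_val hx ha, mul_sub, sub_mul, mul_one, Units.inv_mul,
      sub_eq_add_neg]
  have hb2 : -b * -b = 0 := by
    rw [neg_mul_neg, hb]
    simp only [mul_assoc, Units.mul_inv_cancel_left]
    rw [← mul_assoc a, ha, zero_mul, mul_zero]
  have hb3 : -b * a * -b = 0 := by
    have : b * a * b = (y⁻¹ : Rˣ) * (a * (y * a * (y⁻¹ : Rˣ)) * a) * y := by
      rw [hb]; simp only [mul_assoc]
    rw [neg_mul, neg_mul_neg, this, h', mul_zero, zero_mul]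
  have hk := comm_val hw hx hb2 ha hb3 (by rw [mul_neg, neg_mul, h, neg_zero])
  set k := (y⁻¹ * x⁻¹ * y)⁻¹ * x⁻¹ * (y⁻¹ * x⁻¹ * y) * x with hkd
  have hc : k * x = x * k := by
    apply Units.ext
    have e1 : ∀ z, a * (a * z) = 0 := fun z => by rw [← mul_assoc, ha, zero_mul]
    rw [mul_assoc] at h
    simp only [Units.val_mul k, Units.val_mul x, hk, hx, mul_add, add_mul, mul_sub, sub_mul,
      mul_one, one_mul, mul_assoc, neg_mul, mul_neg, ha, h, e1, mul_zero]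
    abel
  have e : (fun z => z⁻¹ * x⁻¹ * z * x)^[3] y = x⁻¹ * (k⁻¹ * x⁻¹ * (k * x)) * x := by
    simp only [Function.iterate_succ, Function.iterate_zero, Function.comp, id, hkd]
    group
  rw [e, hc]; group

/-- units commuting with a set of elements -/
def Cen (T : Set R) : Subgroup Rˣ where
  carrier := {u | ∀ z ∈ T, Commute (u : R) z}
  one_mem' := fun z _ => Commute.one_left z
  mul_mem' := fun hu hv z hz => (hu z hz).mul_left (hv z hz)
  inv_mem' := fun hu z hz => (hu z hz).units_inv_left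

end Ring

variable {𝕜 : Type} [Field 𝕜]

/-- admissible coefficients -/
def Adm (c : A 𝕜) : Prop :=
  ∃ (v₁ v₂ v₃ : V 𝕜) (w : A 𝕜), sg w = w ∧ c = io v₁ * (io v₂ * (io v₃ * w))

/-- vector fields with one component -/
noncomputable def vf (c : A 𝕜) (i : ℕ) : U 𝕜 := lm c * dd i

@[simp] lemma vf_apply (c : A 𝕜) (i : ℕ) (a : A 𝕜) : vf c i a = c * dd i a := rfl

lemma mul_io' (u : A 𝕜) (v : V 𝕜) (y : A 𝕜) : u * (io v * y) = io v * (sg u * y) := by
  rw [← mul_assoc, mul_io, mul_assoc]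

lemma io_sq' (v : V 𝕜) (y : A 𝕜) : io v * (io v * y) = 0 := by rw [← mul_assoc, io_sq, zero_mul]

lemma Adm.odd {c : A 𝕜} (h : Adm c) : sg c = -c := by
  obtain ⟨v₁, v₂, v₃, w, hw, rfl⟩ := h
  simp [hw]

lemma Adm.mem {c : A 𝕜} (h : Adm c) {r : ℕ} {a : A 𝕜} (ha : a ∈ F r) : c * a ∈ F (r + 2) := by
  obtain ⟨v₁, v₂, v₃, w, -, rfl⟩ := h
  rw [mul_assoc, mul_assoc]
  exact io_mul_mem _ (io_mul_mem _ (mul_mem_F _ _ ha))

lemma Adm.sand {c : A 𝕜} (h : Adm c) (i : ℕ) : (∀ z, c * (c * z) = 0) ∧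
    (∀ z, c * dd i (c * z) = 0) ∧
    ∀ D : U 𝕜, (∀ a b, D (a * b) = D a * b + a * D b) → ∀ z, c * dd i (D (c * z)) = 0 := by
  have ho := h.odd
  obtain ⟨v₁, v₂, v₃, w, hw, hc⟩ := h
  have k : ∀ v : V 𝕜, io v * c = 0 → ∀ z, c * (io v * z) = 0 := fun v hv z => by
    rw [mul_io', ho, neg_mul, mul_neg, ← mul_assoc, hv, zero_mul, neg_zero]
  have k1 := k v₁ (by rw [hc, io_sq'])
  have k2 := k v₂ (by rw [hc, mul_io', sg_io, neg_mul, io_sq']; simp)
  have k3 := k v₃ (by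
    rw [hc, mul_io', sg_io, neg_mul, mul_io' (io v₃), sg_io, neg_mul, io_sq']; simp)
  have l : ∀ v v' : V 𝕜, (∀ z, c * (io v * z) = 0) → (∀ z, c * (io v' * z) = 0) →
      ∀ z, c * dd i (io v * (io v' * z)) = 0 := fun v v' h1 h2 z => by
    rw [dd_io_mul, mul_sub, mul_smul_comm, h1, h2]; simp
  have e : ∀ z, c * z = io v₁ * (io v₂ * (io v₃ * (w * z))) := fun z => by
    rw [hc]; simp only [mul_assoc]
  refine ⟨fun z => by rw [e z, k1], fun z => by rw [e z, l _ _ k1 k2], fun D hD z => ?_⟩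
  rw [e z, hD, hD (io v₂), mul_add, mul_io' (D _), mul_io' (sg _), mul_io' (D _), map_add,
    map_add, mul_add, mul_add, l _ _ k2 k3, l _ _ k1 k3, l _ _ k1 k2]
  simp

lemma vf_der {c : A 𝕜} (h : sg c = -c) (i : ℕ) (a b : A 𝕜) :
    vf c i (a * b) = vf c i a * b + a * vf c i b := by
  simp only [vf_apply, dd_mul, mul_add, ← mul_assoc, odd_comm h]

lemma Adm.sq {c : A 𝕜} (h : Adm c) (i : ℕ) : vf c i * vf c i = 0 :=
  LinearMap.ext fun _ => (h.sand i).2.1 _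

/-- the generators -/
def Gen : Set (U 𝕜)ˣ := {u | ∃ c i, Adm c ∧ (u : U 𝕜) = 1 + vf c i}

variable (𝕜) in
/-- the group -/
noncomputable def G : Subgroup (U 𝕜)ˣ := Subgroup.closure Gen

lemma inv_app (u : (U 𝕜)ˣ) (a : A 𝕜) : ((u⁻¹ : (U 𝕜)ˣ) : U 𝕜) ((u : U 𝕜) a) = a := by
  rw [← Module.End.mul_apply, Units.inv_mul, Module.End.one_apply]

lemma app_inv (u : (U 𝕜)ˣ) (a : A 𝕜) : (u : U 𝕜) (((u⁻¹ : (U 𝕜)ˣ) : U 𝕜) a) = a := by
  rw [← Module.End.mul_apply, Units.mul_inv, Module.End.one_apply]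

/-- multiplicative maps -/
def Aut : Subgroup (U 𝕜)ˣ where
  carrier := {u | ∀ a b, (u : U 𝕜) (a * b) = (u : U 𝕜) a * (u : U 𝕜) b}
  one_mem' := fun _ _ => rfl
  mul_mem' := fun {u v} hu hv a b => by
    simp only [Units.val_mul, Module.End.mul_apply]; rw [hv, hu]
  inv_mem' := fun {u} hu a b => by
    conv_lhs => rw [← app_inv u a, ← app_inv u b, ← hu, inv_app]

lemma Aut.one {u : (U 𝕜)ˣ} (hu : u ∈ Aut) : (u : U 𝕜) 1 = 1 := by
  have := hu 1 (((u⁻¹ : (U 𝕜)ˣ) : U 𝕜) 1)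
  rw [one_mul, app_inv, mul_one] at this
  exact this.symm

lemma Aut.eq_one {u : (U 𝕜)ˣ} (hu : u ∈ Aut) (h : ∀ j, (u : U 𝕜) (xi j) = xi j) : u = 1 := by
  have h1 : ∀ v, (u : U 𝕜) (io v) = io v := by
    intro v
    induction v using Finsupp.induction_linear with
    | zero => simp
    | add f g hf hg => rw [map_add, map_add, hf, hg]
    | single i q =>
      have : io (Finsupp.single i q) = q • xi i := by rw [xi, ← map_smul]; simp
      rw [this, map_smul, h]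
  refine Units.ext (LinearMap.ext fun a => ?_)
  change (u : U 𝕜) a = a
  induction a using ind with
  | h1 r => rw [Algebra.algebraMap_eq_smul_one, map_smul, Aut.one hu]
  | h2 x y hx hy => rw [map_add, hx, hy]
  | h3 x m hx => rw [hu, h1, hx]

lemma G_le_Aut : G 𝕜 ≤ Aut := by
  refine (Subgroup.closure_le _).2 ?_
  rintro u ⟨c, i, hc, hu⟩ a b
  have e : vf c i a * vf c i b = 0 := by
    rw [vf_apply, vf_apply, mul_assoc, ← mul_assoc _ c, ← odd_comm hc.odd, mul_assoc,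
      (hc.sand i).1]
  simp only [hu, LinearMap.add_apply, Module.End.one_apply, vf_der hc.odd, add_mul, mul_add, e]
  abel

lemma G_le_Par : G 𝕜 ≤ Cen {(sg.toLinearMap : U 𝕜)} := by
  refine (Subgroup.closure_le _).2 ?_
  rintro u ⟨c, i, hc, hu⟩ _ rfl
  rw [hu]
  refine (Commute.one_left _).add_left (LinearMap.ext fun a => ?_)
  change c * dd i (sg a) = sg (c * dd i a)
  rw [map_mul, hc.odd, dd_sg]; simp

lemma G_sg {u : (U 𝕜)ˣ} (hu : u ∈ G 𝕜) (a : A 𝕜) : (u : U 𝕜) (sg a) = sg ((u : U 𝕜) a) :=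
  LinearMap.congr_fun (G_le_Par hu _ rfl).eq a

/-- elements which only involve the first `N` variables -/
noncomputable def Supp (N : ℕ) : Subgroup (U 𝕜)ˣ :=
  Cen {z | ∃ t, N ≤ t ∧ (z = dd t ∨ z = lm (xi t))}

lemma Supp.mono {N M : ℕ} (h : N ≤ M) : Supp (𝕜 := 𝕜) N ≤ Supp M :=
  fun _ hu z ⟨t, ht, hz⟩ => hu z ⟨t, h.trans ht, hz⟩

lemma Supp.dd {N t : ℕ} {u : (U 𝕜)ˣ} (hu : u ∈ Supp N) (ht : N ≤ t) (a : A 𝕜) :
    (u : U 𝕜) (dd t a) = dd t ((u : U 𝕜) a) := LinearMap.congr_fun (hu _ ⟨t, ht, Or.inl rfl⟩).eq a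

lemma Supp.xi {N t : ℕ} {u : (U 𝕜)ˣ} (hu : u ∈ Supp N) (ht : N ≤ t) (a : A 𝕜) :
    (u : U 𝕜) (xi t * a) = xi t * (u : U 𝕜) a :=
  LinearMap.congr_fun (hu _ ⟨t, ht, Or.inr rfl⟩).eq a

lemma exists_supp {u : (U 𝕜)ˣ} (hu : u ∈ G 𝕜) : ∃ N, u ∈ Supp N := by
  induction hu using Subgroup.closure_induction with
  | mem u hu =>
    obtain ⟨c, i, hc, hu⟩ := hu
    obtain ⟨N, hN⟩ := dd_large c
    refine ⟨max N (i + 1), ?_⟩
    rintro _ ⟨t, ht, rfl | rfl⟩ <;> rw [hu] <;>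
      refine (Commute.one_left _).add_left (LinearMap.ext fun a => ?_)
    · change c * dd i (dd t a) = dd t (c * dd i a)
      rw [dd_mul, hN t ((le_max_left _ _).trans ht), hc.odd, dd_dd]; simp
    · have : i ≠ t := by have := (le_max_right _ _).trans ht; omega
      change c * dd i (xi t * a) = xi t * (c * dd i a)
      rw [dd_mul, dd_xi_ne this, zero_mul, zero_add, ← mul_assoc, odd_comm hc.odd, mul_assoc]
  | one => exact ⟨0, one_mem _⟩
  | mul u v _ _ hu hv =>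
    obtain ⟨N, hN⟩ := hu
    obtain ⟨M, hM⟩ := hv
    exact ⟨max N M, mul_mem (Supp.mono (le_max_left _ _) hN) (Supp.mono (le_max_right _ _) hM)⟩
  | inv u _ hu => exact hu.imp fun _ h => inv_mem h

/-- the stability series of the degree filtration -/
def St (c : ℕ) : Subgroup (U 𝕜)ˣ where
  carrier := {u | ∀ r, ∀ a ∈ F r, (u : U 𝕜) a - a ∈ F (r + c + 1)}
  one_mem' := fun _ _ _ => by simp
  mul_mem' := fun {u v} hu hv r a ha => by
    have h1 := hv r a ha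
    have h2 : (v : U 𝕜) a ∈ F r := by simpa using add_mem (F_anti (by omega) h1) ha
    simpa using add_mem (hu r _ h2) h1
  inv_mem' := fun {u} hu r a ha => by
    have h1 : ∀ s ≤ r, ((u⁻¹ : (U 𝕜)ˣ) : U 𝕜) a ∈ F s := by
      intro s
      induction s with
      | zero => exact fun _ => Submodule.mem_top
      | succ s ih =>
        intro hs
        have := hu s _ (ih (by omega))
        rw [app_inv] at this
        simpa using sub_mem (F_anti hs ha) (F_anti (by omega : s + 1 ≤ s + c + 1) this)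
    have := hu r _ (h1 r le_rfl)
    rw [app_inv] at this
    simpa using neg_mem this

lemma St.map {c r : ℕ} {u : (U 𝕜)ˣ} (hu : u ∈ St c) {a : A 𝕜} (ha : a ∈ F r) :
    (u : U 𝕜) a ∈ F r := by
  simpa using add_mem (F_anti (by omega) (hu r a ha)) ha

lemma G_le_St : G 𝕜 ≤ St 0 := by
  refine (Subgroup.closure_le _).2 ?_
  rintro u ⟨c, i, hc, hu⟩ r a ha
  rw [hu, LinearMap.add_apply, Module.End.one_apply, add_sub_cancel_left, vf_apply]
  cases r with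
  | zero => exact F_succ_le _ (hc.mem Submodule.mem_top)
  | succ r => exact hc.mem (dd_mem_F i r ha)

lemma St.comm {c : ℕ} {u v : (U 𝕜)ˣ} (hu : u ∈ St c) (hv : v ∈ St 0) : ⁅u, v⁆ ∈ St (c + 1) := by
  intro r a ha
  have hb := St.map (inv_mem hu) (St.map (inv_mem hv) ha)
  set b := ((u⁻¹ : (U 𝕜)ˣ) : U 𝕜) (((v⁻¹ : (U 𝕜)ˣ) : U 𝕜) a) with hbd
  have e1 : a = (v : U 𝕜) ((u : U 𝕜) b) := by rw [hbd, app_inv, app_inv]
  have e2 : ((⁅u, v⁆ : (U 𝕜)ˣ) : U 𝕜) a = (u : U 𝕜) ((v : U 𝕜) b) := rfl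
  have h1 := hu _ _ (hv r b hb)
  have h2 := hv _ _ (hu r b hb)
  have h3 := sub_mem (F_anti (by omega : r + (c + 1) + 1 ≤ _) h1)
    (F_anti (by omega : r + (c + 1) + 1 ≤ _) h2)
  rw [e2, e1]
  simp only [map_sub] at h3
  have e3 : ∀ p q s t w : A 𝕜, p - s - (t - w) - (q - t - (s - w)) = p - q := fun _ _ _ _ _ => by
    abel
  rwa [e3] at h3

lemma eq_one_of_deep {N : ℕ} {u : (U 𝕜)ˣ} (h1 : u ∈ Aut) (h2 : u ∈ Supp N) (h3 : u ∈ St N) :
    u = 1 := by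
  refine Aut.eq_one h1 fun j => ?_
  rcases le_or_gt N j with h | h
  · simpa [Aut.one h1] using Supp.xi h2 h 1
  · refine sub_eq_zero.1 (eq_zero_of_deep' (N := N) (fun t ht => ?_)
      (F_anti (by omega) (h3 1 _ (xi_mem j))))
    rw [map_sub, ← Supp.dd h2 ht, dd_xi_ne (by omega), map_zero, sub_zero]

lemma St.pow_sub {c r : ℕ} {u : (U 𝕜)ˣ} (h0 : u ∈ St 0) (hu : u ∈ St c) {a : A 𝕜}
    (ha : a ∈ F r) (m : ℕ) : ((u ^ m : (U 𝕜)ˣ) : U 𝕜) a - a - (m : 𝕜) • ((u : U 𝕜) a - a) ∈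
      F (r + (c + 1) + 1) := by
  induction m with
  | zero => simp
  | succ m ihm =>
    have h1 := St.map h0 ihm
    have h2 := Submodule.smul_mem _ (m : 𝕜)
      (F_anti (by omega : r + (c + 1) + 1 ≤ _) (h0 _ _ (hu r a ha)))
    have h3 := add_mem h1 h2
    have e : ((u ^ (m + 1) : (U 𝕜)ˣ) : U 𝕜) a = (u : U 𝕜) (((u ^ m : (U 𝕜)ˣ) : U 𝕜) a) := by
      rw [pow_succ']; rfl
    rw [e]
    simp only [map_sub, map_smul] at h3
    have e3 : ∀ p q s : A 𝕜, p - q - (m : 𝕜) • (s - q) + (m : 𝕜) • (s - q - (q - a)) =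
        p - a - ((m + 1 : ℕ) : 𝕜) • (q - a) := fun _ _ _ => by push_cast; module
    rwa [e3] at h3

lemma torsion_free {u : (U 𝕜)ˣ} (hu : u ∈ G 𝕜) {n : ℕ} (hn : (n : 𝕜) ≠ 0) (h : u ^ n = 1) :
    u = 1 := by
  obtain ⟨N, hN⟩ := exists_supp hu
  have h0 := G_le_St hu
  refine eq_one_of_deep (G_le_Aut hu) hN ?_
  clear hN
  induction N with
  | zero => exact h0
  | succ c ih =>
    intro r a ha
    have h1 := St.pow_sub h0 ih ha n
    rw [h] at h1
    simpa [smul_smul, hn] using Submodule.smul_mem _ (-(n : 𝕜)⁻¹) h1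

lemma isPGroup {p : ℕ} (hp : (p : 𝕜) = 0) : IsPGroup p (G 𝕜) := by
  intro g
  obtain ⟨N, hN⟩ := exists_supp g.2
  refine ⟨N, Subtype.ext (eq_one_of_deep (G_le_Aut (g ^ p ^ N).2) (pow_mem hN _) ?_)⟩
  clear hN
  induction N with
  | zero => exact G_le_St (g ^ p ^ 0).2
  | succ c ih =>
    intro r a ha
    have h1 := St.pow_sub (G_le_St (g ^ p ^ c).2) ih ha p
    rw [hp, zero_smul, sub_zero] at h1
    rw [pow_succ, pow_mul]
    exact h1

lemma res_nil (g : G 𝕜) (h : ∀ n, g ∈ (⊤ : Subgroup (G 𝕜)).lowerCentralSeries n) : g = 1 := by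
  obtain ⟨N, hN⟩ := exists_supp g.2
  have key : ∀ n, (⊤ : Subgroup (G 𝕜)).lowerCentralSeries n ≤ (St n).comap (G 𝕜).subtype :=
    Subgroup.descending_central_series_ge_lower (fun n => (St n).comap (G 𝕜).subtype)
      ⟨eq_top_iff.2 fun x _ => G_le_St x.2, fun x m hx y => St.comm hx (G_le_St y.2)⟩
  exact Subtype.ext (eq_one_of_deep (G_le_Aut g.2) hN (key N (h N)))

lemma loc_nil (S : Finset (G 𝕜)) : Group.IsNilpotent (Subgroup.closure (S : Set (G 𝕜))) := by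
  obtain ⟨N, hN⟩ : ∃ N, ∀ g ∈ S, (g : (U 𝕜)ˣ) ∈ Supp N := by
    choose n hn using fun g : (G 𝕜) => exists_supp g.2
    exact ⟨S.sup n, fun g hg => Supp.mono (Finset.le_sup hg) (hn g)⟩
  have hcl : Subgroup.closure (S : Set (G 𝕜)) ≤ (Supp N).comap (G 𝕜).subtype :=
    (Subgroup.closure_le _).2 hN
  rw [Subgroup.nilpotent_iff_finite_descending_central_series]
  refine ⟨N, fun m => ((St m).comap (G 𝕜).subtype).subgroupOf _, ⟨?_, ?_⟩, ?_⟩
  · exact eq_top_iff.2 fun x _ => G_le_St x.1.2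
  · exact fun x m hx g => St.comm hx (G_le_St g.1.2)
  · exact eq_bot_iff.2 fun x hx => Subgroup.mem_bot.2 (Subtype.ext (Subtype.ext
      (eq_one_of_deep (G_le_Aut x.1.2) (hcl x.2) hx)))

lemma gen_engel {x y : (U 𝕜)ˣ} (hx : x ∈ Gen) (hy : y ∈ Aut) :
    (fun z => z⁻¹ * x⁻¹ * z * x)^[3] y = 1 := by
  obtain ⟨c, i, hc, hx⟩ := hx
  have key : ∀ y ∈ Aut, vf c i * ((y⁻¹ : (U 𝕜)ˣ) * vf c i * y) * vf c i = 0 := by
    intro y hy
    refine LinearMap.ext fun a => (hc.sand i).2.2 ((y⁻¹ : (U 𝕜)ˣ) * vf c i * y) (fun a b => ?_) _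
    simp only [Module.End.mul_apply]
    rw [hy, vf_der hc.odd, map_add, inv_mem hy, inv_mem hy, inv_app, inv_app]
  exact engel hx (hc.sq i) (key y hy) (by simpa using key y⁻¹ (inv_mem hy))

end Pool.Agent.Lib.MP_b39e30_al.Gr
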